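import Pool.Agent.Lib.MP_b5021c_nt.IfaceE5

/-!
# Board b5, stage 3, row E5_CA5: the cardioid condition gives two inequalities
-/

namespace Pool.Agent.B5.E.H40

/-- the cardioid: `w` outside `{(1-x)^2 : |x| < 1}`. -/
theorem crd (w : ℂ) (h : ∀ x : ℂ, ‖x‖ < 1 → w ≠ (1 - x) * (1 - x)) :
    2 * (‖w‖ + w.re) ≤ ‖w‖ ^ 2 := by
  by_contra hc
  push Not at hc
  obtain ⟨s, hs, hsre⟩ : ∃ s : ℂ, s * s = w ∧ 0 ≤ s.re := by
    obtain ⟨s, hs⟩ := IsAlgClosed.exists_pow_nat_eq w (n := 2) (by norm_num)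
    rcases le_total 0 s.re with h0 | h0
    · exact ⟨s, by rw [← hs]; ring, h0⟩
    · exact ⟨-s, by rw [← hs]; ring, by simpa using h0⟩
  have hn : ‖w‖ = s.re ^ 2 + s.im ^ 2 := by
    rw [← hs, norm_mul, ← pow_two, Complex.sq_norm, Complex.normSq_apply]; ring
  have hre : w.re = s.re ^ 2 - s.im ^ 2 := by
    rw [← hs, Complex.mul_re]; ring
  have h1 : ‖w‖ + w.re = 2 * s.re ^ 2 := by rw [hn, hre]; ring
  rw [h1, hn] at hc
  have h2 : (s.re ^ 2 + s.im ^ 2) < 2 * s.re := by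
    have : (s.re ^ 2 + s.im ^ 2) ^ 2 < (2 * s.re) ^ 2 := by nlinarith
    exact lt_of_pow_lt_pow_left₀ 2 (by positivity) this
  refine h (1 - s) ?_ ?_
  · have : ‖1 - s‖ ^ 2 < 1 := by
      rw [Complex.sq_norm, Complex.normSq_apply]
      simp only [Complex.sub_re, Complex.one_re, Complex.sub_im, Complex.one_im]
      nlinarith
    nlinarith [norm_nonneg (1 - s)]
  · rw [← hs]; ring

/-- Row CA5. -/
theorem ca5 : Ca5S := by
  intro q a h
  by_cases ha : a = 0
  · subst ha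
    simp
  have hw := crd ((q + a) / a) (by
    intro x hx hw
    apply h x x hx hx
    rw [← hw]
    field_simp
    ring)
  have hna : 0 < ‖a‖ := norm_pos_iff.2 ha
  set w := (q + a) / a with hwd
  have hq : q = a * (w - 1) := by rw [hwd]; field_simp; ring
  have hqa : q + a = a * w := by rw [hwd]; field_simp
  have hq2 : ‖q‖ ^ 2 = ‖a‖ ^ 2 * (‖w‖ ^ 2 - 2 * w.re + 1) := by
    rw [hq, norm_mul, mul_pow, Complex.sq_norm (w - 1), Complex.sq_norm w,
      Complex.normSq_apply, Complex.normSq_apply]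
    simp only [Complex.sub_re, Complex.one_re, Complex.sub_im, Complex.one_im]
    ring
  have hre : (a * (starRingEnd ℂ) q).re = ‖a‖ ^ 2 * (w.re - 1) := by
    rw [hq, map_mul, ← mul_assoc, Complex.mul_conj, Complex.normSq_eq_norm_sq,
      Complex.re_ofReal_mul]
    simp
  have hle : w.re ≤ ‖w‖ := Complex.re_le_norm w
  constructor
  · rw [hqa, norm_mul, hq2]
    nlinarith [sq_nonneg ‖a‖, mul_le_mul_of_nonneg_left hw (sq_nonneg ‖a‖)]
  · rw [hre, hq2]
    nlinarith [mul_le_mul_of_nonneg_left hw (sq_nonneg ‖a‖),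
      mul_le_mul_of_nonneg_left hle (sq_nonneg ‖a‖)]

end Pool.Agent.B5.E.H40
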