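import Pool.Agent.Lib.MP_b5021c_nt.IfaceAM
import Pool.Agent.Lib.MP_b5021c_nt.E.H07.Mxu
import Pool.Agent.Lib.MP_b5021c_nt.B.H59.CstA

/-!
# Board b5, row AM_ONE: drop one, the drop functional has the values `0, 1, -1`
-/

namespace Pool.Agent.B5.H40

open scoped LaurentPolynomial

open Pool.Agent.B5 in
/-- (AM_ONE) -/
theorem one (hUni : UniKS) (hDua : DuaS) (hTop : TopS) (hRS : RaySpanS) (hE2 : E2S) : OneKS := by
  classical
  intro O _ _ _ _ P L _ _ _ _ _ phi D S eta θ hM hK hS hv0 hns hdrop
  have hD : DD phi D := hM.fp.dd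
  obtain ⟨-, hthin, -, -, hrk, -⟩ := hE2 O P L phi D hD hK
  -- the lattice of `S` has the rank `K - 1`
  have hLam : Module.finrank ℤ (LamS eta S D) + 1 = Module.finrank ℤ L := by
    have h1 : Module.finrank ℤ (US eta S D) = Module.finrank ℤ (LamS eta S D) :=
      H07.finrank_satur (LamS eta S D)
    omega
  -- every vector outside `U_S` generates, together with `LamS`
  have key : ∀ v ∈ supp D, v ∉ US eta S D →
      LamS eta S D ⊔ Submodule.span ℤ ({v} : Set L) = ⊤ := by
    intro v hv hvU
    refine hUni O P L phi D S eta θ {v} hM hK hS hv0 hns ?_ ?_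
    · intro x hx
      rw [Set.mem_singleton_iff] at hx
      rw [hx]
      exact hv
    · rw [H07.finrank_sup_eq (H07.US_sat eta S D) hvU]
      exact hdrop
  -- a ray outside `U_S`
  obtain ⟨R, hR, hRU⟩ : ∃ R, Ray D R ∧ R ∉ US eta S D := by
    by_contra hcon
    push Not at hcon
    have h1 : Submodule.span ℤ {b | Ray D b} ≤ US eta S D := by
      rw [Submodule.span_le]
      intro b hb
      exact hcon b hb
    have h2 := Submodule.finrank_mono h1
    have h3 : Module.finrank ℤ (Submodule.span ℤ {b | Ray D b}) = Module.finrank ℤ L := hrk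
    omega
  have htop := key R hR.1 hRU
  obtain ⟨hsat, mu', hmu1, hmu2⟩ := hDua L (LamS eta S D) 1 (fun _ => R) hLam (by
    rw [Set.range_const]
    exact htop)
  have hmuR : mu' 0 R = 1 := by
    have h1 := hmu1 0 0
    rwa [if_pos rfl] at h1
  have hker : ∀ a, a ∈ LamS eta S D ↔ mu' 0 a = 0 := by
    intro a
    rw [hmu2 a]
    constructor
    · intro h
      exact h 0
    · intro h i
      rw [Subsingleton.elim i 0]
      exact h
  have hUS : ∀ a, a ∈ US eta S D ↔ mu' 0 a = 0 := by
    intro a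
    rw [← hker a]
    constructor
    · rintro ⟨n, hn, h⟩
      exact hsat n a hn h
    · intro h
      exact H63.le_satur _ h
  -- the values on the support
  have hval : ∀ a ∈ supp D, mu' 0 a = 0 ∨ mu' 0 a = 1 ∨ mu' 0 a = -1 := by
    intro a ha
    by_cases h0 : mu' 0 a = 0
    · exact Or.inl h0
    right
    have haU : a ∉ US eta S D := fun h => h0 ((hUS a).mp h)
    have h1 : R ∈ LamS eta S D ⊔ Submodule.span ℤ ({a} : Set L) := by
      rw [key a ha haU]
      exact Submodule.mem_top
    obtain ⟨l, hl, y, hy, hly⟩ := Submodule.mem_sup.mp h1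
    obtain ⟨n, rfl⟩ := Submodule.mem_span_singleton.mp hy
    have h2 : mu' 0 (l + n • a) = 1 := by rw [hly]; exact hmuR
    rw [map_add, map_zsmul, (hker l).mp hl, zero_add, smul_eq_mul] at h2
    rcases Int.isUnit_iff.mp (IsUnit.of_mul_eq_one n ((mul_comm _ _).trans h2)) with h | h
    · exact Or.inl h
    · exact Or.inr h
  refine ⟨mu' 0, hUS, ⟨R, hR, hmuR⟩, ?_, hval⟩
  -- a ray with the value `-1`
  obtain ⟨t, u, hrev, -, hbig⟩ := hTop O P L phi D hD hK
  have htL := hbig S eta hS hv0
  have ht0 : mu' 0 t = 0 := (hker t).mp htL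
  have htR : t - R ∈ supp D := by
    intro h
    rw [hrev R] at h
    have h1 := (mul_eq_zero.mp h).resolve_left u.ne_zero
    exact hR.1 (Pool.Agent.B5.H59.rsh_eq_zero.mp h1)
  have htRm : mu' 0 (t - R) = -1 := by rw [map_sub, ht0, hmuR, zero_sub]
  have htRn : t - R ≠ 0 := by
    intro h
    rw [h, map_zero] at htRm
    omega
  obtain ⟨lam, hlam, -⟩ := hD.st.2
  obtain ⟨hcl, -, -⟩ := hRS O L D ⟨lam, hlam⟩ hthin
  obtain ⟨n, hn, hmem⟩ := hcl (t - R) htR htRn
  by_contra hcon
  push Not at hcon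
  have hnn : ∀ b ∈ AddSubmonoid.closure {b | Ray D b}, 0 ≤ mu' 0 b := by
    intro b hb
    induction hb using AddSubmonoid.closure_induction with
    | mem x hx =>
      have h1 := hval x hx.1
      have h2 := hcon x hx
      omega
    | zero => rw [map_zero]
    | add x y _ _ hx hy => rw [map_add]; omega
  have h1 := hnn _ hmem
  rw [map_nsmul, htRm] at h1
  have h2 : (n : ℤ) * (-1) ≥ 0 := by simpa using h1
  omega

end Pool.Agent.B5.H40
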